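import Pool.Agent.Lib_helper68.MC.Defs

/-! Block CP: one-particle integral with the singular part. -/

set_option autoImplicit false

namespace Pool.Agent.Lib_helper68.MC

open MeasureTheory Filter Topology Set
open scoped ComplexConjugate ENNReal NNReal

noncomputable section

theorem CP_near_ge {r : ℝ} {x : ℂ} (h : r ≤ ‖x‖) : near r x = 0 := by
  unfold near
  rw [max_eq_left h]
  ring

/-- on the small disc the exponential is a power -/
theorem CP_near_lt {r s : ℝ} (hr : 0 < r) {x : ℂ} (hx : x ≠ 0) (h : ‖x‖ < r) :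
    Real.exp (s * near r x) = (r / ‖x‖) ^ (s / (4 * Real.pi)) := by
  have hx' : 0 < ‖x‖ := norm_pos_iff.2 hx
  unfold near
  rw [max_eq_right h.le, ← Real.log_div hr.ne' hx'.ne', Real.rpow_def_of_pos (by positivity)]
  congr 1
  field_simp

/-- the weight of the small disc -/
def CP_G (r β : ℝ) : ℂ → ℝ≥0∞ := fun u =>
  if ‖u‖ < r then ENNReal.ofReal ((r / ‖u‖) ^ β) else 0

theorem CP_G_integral {r β : ℝ} (hr : 0 < r) (hβ : β < 2) :
    ∫⁻ u, CP_G r β u = ENNReal.ofReal (2 * Real.pi / (2 - β) * r ^ 2) := by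
  rw [← Complex.lintegral_comp_polarCoord_symm]
  have htar : polarCoord.target = Ioi (0 : ℝ) ×ˢ Ioo (-Real.pi) Real.pi := rfl
  have h1 : ∫⁻ p in polarCoord.target, ENNReal.ofReal p.1 • CP_G r β (Complex.polarCoord.symm p) =
      ∫⁻ p in Ioi (0 : ℝ) ×ˢ Ioo (-Real.pi) Real.pi,
        (Iio r).indicator (fun ρ => ENNReal.ofReal (ρ * (r / ρ) ^ β)) p.1 := by
    rw [htar]
    refine setLIntegral_congr_fun (measurableSet_Ioi.prod measurableSet_Ioo) ?_
    intro p hp
    have hp1 : 0 < p.1 := hp.1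
    have hn : ‖Complex.polarCoord.symm p‖ = p.1 := by
      rw [Complex.norm_polarCoord_symm, abs_of_pos hp1]
    simp only [CP_G, hn, smul_eq_mul, Set.indicator, mem_Iio]
    split_ifs with h
    · rw [← ENNReal.ofReal_mul hp1.le]
    · rw [mul_zero]
  rw [h1]
  have hm : Measurable fun ρ : ℝ =>
      (Iio r).indicator (fun ρ => ENNReal.ofReal (ρ * (r / ρ) ^ β)) ρ := by
    refine Measurable.indicator ?_ measurableSet_Iio
    fun_prop
  have hm2 : Measurable fun p : ℝ × ℝ =>
      (Iio r).indicator (fun ρ => ENNReal.ofReal (ρ * (r / ρ) ^ β)) p.1 := hm.comp measurable_fst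
  rw [Measure.volume_eq_prod, ← Measure.prod_restrict, lintegral_prod _ hm2.aemeasurable]
  simp only [lintegral_const, Measure.restrict_apply MeasurableSet.univ, univ_inter,
    Real.volume_Ioo]
  rw [lintegral_mul_const _ hm, lintegral_indicator measurableSet_Iio,
    Measure.restrict_restrict measurableSet_Iio]
  have hI : Iio r ∩ Ioi 0 = Ioo 0 r := by
    ext x; simp [and_comm]
  rw [hI]
  have h2 : ∫⁻ ρ in Ioo 0 r, ENNReal.ofReal (ρ * (r / ρ) ^ β) =
      ENNReal.ofReal (r ^ 2 / (2 - β)) := by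
    have h3 : ∀ ρ ∈ Ioo 0 r, ρ * (r / ρ) ^ β = r ^ β * ρ ^ (1 - β) := by
      intro ρ hρ
      rw [Real.div_rpow hr.le hρ.1.le, Real.rpow_sub hρ.1, Real.rpow_one]
      ring
    rw [setLIntegral_congr_fun measurableSet_Ioo (fun ρ hρ => by
      show ENNReal.ofReal (ρ * (r / ρ) ^ β) = ENNReal.ofReal (r ^ β * ρ ^ (1 - β))
      rw [h3 ρ hρ])]
    have hint : IntervalIntegrable (fun ρ : ℝ => r ^ β * ρ ^ (1 - β)) volume 0 r :=
      (intervalIntegral.intervalIntegrable_rpow' (by linarith)).const_mul _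
    rw [← ofReal_integral_eq_lintegral_ofReal]
    · congr 1
      rw [← integral_Ioc_eq_integral_Ioo, ← intervalIntegral.integral_of_le hr.le,
        intervalIntegral.integral_const_mul, integral_rpow (Or.inl (by linarith))]
      rw [Real.zero_rpow (by linarith), show (1 : ℝ) - β + 1 = 2 - β by ring, sub_zero,
        Real.rpow_sub hr, show (2 : ℝ) = ((2 : ℕ) : ℝ) by norm_num, Real.rpow_natCast]
      have : r ^ β ≠ 0 := (Real.rpow_pos_of_pos hr β).ne'
      field_simp
    · exact (intervalIntegrable_iff_integrableOn_Ioo_of_le hr.le).1 hint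
    · refine (ae_restrict_iff' measurableSet_Ioo).2 (ae_of_all _ fun ρ hρ => ?_)
      have := hρ.1
      show 0 ≤ r ^ β * ρ ^ (1 - β)
      positivity
  rw [h2, ← ENNReal.ofReal_mul (by
    have : 0 < 2 - β := by linarith
    positivity)]
  congr 1
  ring

theorem CP_wt_bound {f : ℂ → ℝ} (hf : Continuous f) (hfc : HasCompactSupport f) {α : ℝ} : ∃ B > 0, ∀ y, wt α f y ≤ B * Real.exp (-α * ‖y‖ ^ 2) := by
  obtain ⟨M, hM⟩ := hf.bounded_above_of_compact_support hfc
  refine ⟨Real.exp M, Real.exp_pos _, fun y => ?_⟩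
  unfold wt
  rw [← Real.exp_add]
  refine Real.exp_le_exp.2 ?_
  have := (le_abs_self (f y)).trans (hM y)
  linarith

theorem CP_wt_int {f : ℂ → ℝ} (hf : Continuous f) (hfc : HasCompactSupport f) {α : ℝ}
    (hα : 0 < α) : Integrable (wt α f) := by
  obtain ⟨B, hB, hle⟩ := CP_wt_bound (α := α) hf hfc
  have hg : Integrable fun y : ℂ => Real.exp (-α * ‖y‖ ^ 2) := by
    refine Integrable.of_integral_ne_zero ?_
    rw [GaussianFourier.integral_rexp_neg_mul_sq_norm hα]
    positivity
  refine (hg.const_mul B).mono' ?_ (ae_of_all _ fun y => ?_)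
  · have : Continuous (wt α f) := by
      unfold wt
      fun_prop
    exact this.aestronglyMeasurable
  · rw [Real.norm_of_nonneg (by unfold wt; positivity)]
    exact hle y

theorem CP_one {f : ℂ → ℝ} (hf : Continuous f) (hfc : HasCompactSupport f) {α s : ℝ}
    (hα : 0 < α) (hs0 : 0 ≤ s) (hs : s < 8 * Real.pi) : ∃ C > 0, ∀ r : ℝ, 0 < r → r ≤ 1 → ∀ x : ℂ,
    ∫⁻ y, ENNReal.ofReal (wt α f y) * ENNReal.ofReal (Real.exp (s * near r (x - y))) ≤
      ENNReal.ofReal ((∫ y, wt α f y) + C * r ^ 2) := by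
  obtain ⟨B, hB, hle⟩ := CP_wt_bound (α := α) hf hfc
  have hwtB : ∀ y, wt α f y ≤ B := by
    intro y
    refine (hle y).trans ?_
    have : Real.exp (-α * ‖y‖ ^ 2) ≤ 1 := Real.exp_le_one_iff.2 (by
      have : 0 ≤ α * ‖y‖ ^ 2 := by positivity
      linarith)
    nlinarith
  obtain ⟨β, hβ⟩ : ∃ β, β = s / (4 * Real.pi) := ⟨_, rfl⟩
  have hpi := Real.pi_pos
  have hβ0 : 0 ≤ β := by rw [hβ]; positivity
  have hβ2 : β < 2 := by
    rw [hβ, div_lt_iff₀ (by positivity)]
    linarith
  have h2β : 0 < 2 - β := by linarith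
  refine ⟨B * (2 * Real.pi / (2 - β)), by positivity, fun r hr _ x => ?_⟩
  have hwt0 : ∀ y, 0 ≤ wt α f y := fun y => by unfold wt; positivity
  have hwm : Measurable fun y => ENNReal.ofReal (wt α f y) := by
    have : Continuous (wt α f) := by
      unfold wt
      fun_prop
    exact this.measurable.ennreal_ofReal
  have hpt : ∀ y, y ≠ x → ENNReal.ofReal (wt α f y) * ENNReal.ofReal (Real.exp (s * near r (x - y))) ≤
      ENNReal.ofReal (wt α f y) + ENNReal.ofReal B * CP_G r β (x - y) := by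
    intro y hy
    rcases lt_or_ge ‖x - y‖ r with h | h
    · refine le_add_left ?_
      rw [CP_near_lt hr (sub_ne_zero.2 (Ne.symm hy)) h]
      unfold CP_G
      rw [if_pos h, hβ]
      gcongr
      exact hwtB y
    · refine le_add_right ?_
      rw [CP_near_ge h]
      simp
  calc ∫⁻ y, ENNReal.ofReal (wt α f y) * ENNReal.ofReal (Real.exp (s * near r (x - y)))
      ≤ ∫⁻ y, (ENNReal.ofReal (wt α f y) + ENNReal.ofReal B * CP_G r β (x - y)) := by
        refine lintegral_mono_ae ?_
        have : ∀ᵐ y ∂(volume : Measure ℂ), y ≠ x := by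
          rw [ae_iff]
          simp
        filter_upwards [this] with y hy using hpt y hy
    _ = (∫⁻ y, ENNReal.ofReal (wt α f y)) + ∫⁻ y, ENNReal.ofReal B * CP_G r β (x - y) :=
        lintegral_add_left hwm _
    _ = (∫⁻ y, ENNReal.ofReal (wt α f y)) + ENNReal.ofReal B * ∫⁻ y, CP_G r β (x - y) := by
        rw [lintegral_const_mul' _ _ ENNReal.ofReal_ne_top]
    _ = (∫⁻ y, ENNReal.ofReal (wt α f y)) + ENNReal.ofReal B * ∫⁻ u, CP_G r β u := by
        rw [lintegral_sub_left_eq_self (fun u => CP_G r β u) x]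
    _ = ENNReal.ofReal ((∫ y, wt α f y) + B * (2 * Real.pi / (2 - β)) * r ^ 2) := by
        rw [CP_G_integral hr hβ2, ← ENNReal.ofReal_mul hB.le,
          ← ofReal_integral_eq_lintegral_ofReal (CP_wt_int hf hfc hα) (ae_of_all _ hwt0),
          ← ENNReal.ofReal_add (integral_nonneg hwt0) (by positivity)]
        congr 1
        ring
    _ ≤ _ := le_rfl

end

end Pool.Agent.Lib_helper68.MC
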