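import Pool.Agent.Lib_helper2.MC.HO
import Pool.Agent.Lib_helper37.MC.CP

/-! Block UC: Chernoff bound (from HO and CP). -/

set_option autoImplicit false

namespace Pool.Agent.Lib_helper68.MC

open MeasureTheory Filter Topology Set
open scoped ComplexConjugate ENNReal NNReal
open Pool.Agent.Lib_helper25.PV (Conf)

noncomputable section

theorem UC_near_meas (r : ℝ) : Measurable (near r) := by
  unfold near
  fun_prop

theorem UC_wt_meas {f : ℂ → ℝ} (hf : Continuous f) (α : ℝ) : Continuous (wt α f) := by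
  unfold wt
  fun_prop

theorem UC_wt_int {f : ℂ → ℝ} (hf : Continuous f) (hfc : HasCompactSupport f) {α : ℝ}
    (hα : 0 < α) : Integrable (wt α f) := by
  obtain ⟨M, hM⟩ := hf.bounded_above_of_compact_support hfc
  have hg : Integrable fun y : ℂ => Real.exp (-α * ‖y‖ ^ 2) := by
    refine Integrable.of_integral_ne_zero ?_
    rw [GaussianFourier.integral_rexp_neg_mul_sq_norm hα]
    positivity
  refine (hg.const_mul (Real.exp M)).mono' (UC_wt_meas hf α).aestronglyMeasurable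
    (ae_of_all _ fun y => ?_)
  rw [Real.norm_of_nonneg (by unfold wt; positivity)]
  unfold wt
  rw [← Real.exp_add]
  refine Real.exp_le_exp.2 ?_
  have := (le_abs_self (f y)).trans (hM y)
  linarith

theorem UC_main {f : ℂ → ℝ} (hf : Continuous f) (hfc : HasCompactSupport f) {α s : ℝ}
    (hα : 0 < α) (hs0 : 0 ≤ s) (hs : s < 8 * Real.pi) : ∃ C > 0, ∀ r : ℝ, 0 < r → r ≤ 1 →
    ∀ N : ℕ, 2 ≤ N → ∀ m c δ : ℝ,
    volume {z : Conf N | (∑ i, ‖z i‖ ^ 2) / N ≤ m ∧ c ≤ (∑ i, f (z i)) / N ∧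
        s * δ ≤ s * ((∑ i, ∑ j ∈ Finset.univ.erase i, near r (z i - z j)) / (N : ℝ) ^ 2)} ≤
      ENNReal.ofReal (Real.exp (N * (α * m - c - s * δ +
        Real.log ((∫ y, wt α f y) + C * r ^ 2)))) := by
  obtain ⟨C, hC, hCP⟩ := CP_one hf hfc hα hs0 hs
  refine ⟨C, hC, fun r hr hr1 N hN m c δ => ?_⟩
  have hN0 : (0 : ℝ) < N := by exact_mod_cast (show 0 < N by omega)
  have hwt0 : ∀ y, 0 ≤ wt α f y := fun y => by unfold wt; positivity
  have hZ0 : 0 ≤ ∫ y, wt α f y := integral_nonneg hwt0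
  have hcont := UC_wt_meas hf α
  obtain ⟨Q, hQ⟩ : ∃ Q, Q = (∫ y, wt α f y) + C * r ^ 2 := ⟨_, rfl⟩
  have hQ0 : 0 < Q := by rw [hQ]; positivity
  obtain ⟨F, hF⟩ : ∃ F : Conf N → ℝ≥0∞, ∀ z, F z = (∏ i, ENNReal.ofReal (wt α f (z i))) *
      ENNReal.ofReal (Real.exp ((∑ i, ∑ j ∈ Finset.univ.erase i, s * near r (z i - z j)) / N)) :=
    ⟨_, fun _ => rfl⟩
  have hHO : ∫⁻ z, F z ≤ (∫⁻ y, ENNReal.ofReal (wt α f y)) * (ENNReal.ofReal Q) ^ (N - 1) := by
    simp_rw [hF]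
    refine HO_main N hN hcont.measurable.ennreal_ofReal
      ((UC_near_meas r).const_mul s) (fun x => ?_)
    rw [hQ]
    exact hCP r hr hr1 x
  have hZQ : ∫⁻ y, ENNReal.ofReal (wt α f y) ≤ ENNReal.ofReal Q := by
    rw [← ofReal_integral_eq_lintegral_ofReal (UC_wt_int hf hfc hα) (ae_of_all _ hwt0), hQ]
    refine ENNReal.ofReal_le_ofReal ?_
    have : 0 ≤ C * r ^ 2 := by positivity
    linarith
  have hpow : ∫⁻ z, F z ≤ (ENNReal.ofReal Q) ^ N := by
    refine hHO.trans ((mul_le_mul_left hZQ _).trans ?_)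
    rw [← pow_succ']
    rw [Nat.sub_add_cancel (by omega)]
  obtain ⟨E, hE⟩ : ∃ E : ℝ, E = N * (α * m - c - s * δ) := ⟨_, rfl⟩
  have hFm : Measurable F := by
    have : F = fun z => (∏ i, ENNReal.ofReal (wt α f (z i))) *
      ENNReal.ofReal (Real.exp ((∑ i, ∑ j ∈ Finset.univ.erase i, s * near r (z i - z j)) / N)) :=
      funext hF
    rw [this]
    have h1 := UC_near_meas r
    refine Measurable.mul ?_ ?_
    · exact Finset.measurable_prod _ fun i _ =>
        (hcont.measurable.comp (measurable_pi_apply i)).ennreal_ofReal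
    · refine (Real.measurable_exp.comp (Measurable.div_const ?_ _)).ennreal_ofReal
      refine Finset.measurable_sum _ fun i _ => Finset.measurable_sum _ fun j _ => ?_
      exact (h1.comp ((measurable_pi_apply i).sub (measurable_pi_apply j))).const_mul s
  have hsub : {z : Conf N | (∑ i, ‖z i‖ ^ 2) / N ≤ m ∧ c ≤ (∑ i, f (z i)) / N ∧
        s * δ ≤ s * ((∑ i, ∑ j ∈ Finset.univ.erase i, near r (z i - z j)) / (N : ℝ) ^ 2)} ⊆
      {z | ENNReal.ofReal (Real.exp (-E)) ≤ F z} := by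
    rintro z ⟨h1, h2, h3⟩
    show ENNReal.ofReal (Real.exp (-E)) ≤ F z
    rw [hF, ← ENNReal.ofReal_prod_of_nonneg (fun i _ => hwt0 _),
      ← ENNReal.ofReal_mul (Finset.prod_nonneg fun i _ => hwt0 _)]
    refine ENNReal.ofReal_le_ofReal ?_
    have h4 : ∏ i, wt α f (z i) = Real.exp (∑ i, (f (z i) - α * ‖z i‖ ^ 2)) := by
      rw [Real.exp_sum]
      rfl
    rw [h4, ← Real.exp_add]
    refine Real.exp_le_exp.2 ?_
    simp_rw [← Finset.mul_sum]
    rw [Finset.sum_sub_distrib, ← Finset.mul_sum]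
    obtain ⟨A, hA⟩ : ∃ A, A = ∑ i, ‖z i‖ ^ 2 := ⟨_, rfl⟩
    obtain ⟨B, hB⟩ : ∃ B, B = ∑ i, f (z i) := ⟨_, rfl⟩
    obtain ⟨D, hD⟩ : ∃ D, D = ∑ i, ∑ j ∈ Finset.univ.erase i, near r (z i - z j) := ⟨_, rfl⟩
    rw [← hA] at h1 ⊢
    rw [← hB] at h2 ⊢
    rw [← hD] at h3 ⊢
    rw [div_le_iff₀ hN0] at h1
    rw [le_div_iff₀ hN0] at h2
    have h5 : s * (D / (N : ℝ) ^ 2) = s * D / N / N := by
      field_simp
    rw [h5, le_div_iff₀ hN0] at h3
    have h6 : α * A ≤ α * (m * N) := mul_le_mul_of_nonneg_left h1 hα.le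
    rw [hE]
    nlinarith
  have hmark := meas_ge_le_lintegral_div (μ := (volume : Measure (Conf N))) hFm.aemeasurable
    (ε := ENNReal.ofReal (Real.exp (-E)))
    (by rw [Ne, ENNReal.ofReal_eq_zero, not_le]; exact Real.exp_pos _) ENNReal.ofReal_ne_top
  refine (measure_mono hsub).trans (hmark.trans ?_)
  have h7 : (∫⁻ z, F z) / ENNReal.ofReal (Real.exp (-E)) ≤
      (ENNReal.ofReal Q) ^ N / ENNReal.ofReal (Real.exp (-E)) := ENNReal.div_le_div_right hpow _
  refine h7.trans (le_of_eq ?_)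
  rw [← ENNReal.ofReal_pow hQ0.le, ← ENNReal.ofReal_div_of_pos (Real.exp_pos _)]
  congr 1
  rw [← hQ, mul_add, ← hE, Real.exp_add, Real.exp_neg, ← Real.log_pow, Real.exp_log (by positivity)]
  field_simp

end

end Pool.Agent.Lib_helper68.MC
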